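import Pool.Agent.Q261.SQMain

/-!
# Sequential labelings of `m K_{s,t}`

The definitions (`IsSequentialLabeling`, `Sequential`, `mK`) are in `Pool.Agent.Q261.SQDefs`.
-/

set_option autoImplicit false

namespace Pool.Agent.Results.MP_c865f9_co.AllButPrimePairs

open Q261.SQ

/-- For all positive integers `m, s, t`, except the triples `(2, p, p)` with `p ≥ 5` prime, the graph
`m K_{s,t}` is sequential if and only if either `m = 1` and `min (s, t) = 1`, or `m, s, t ≥ 2`,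
`(s, t) ≠ (2, 2)` and it is not the case that `m = 2` and `s, t ≤ 3`. -/
theorem result (m s t : ℕ) (hm : 0 < m) (hs : 0 < s) (ht : 0 < t)
    (hex : ¬ (m = 2 ∧ s = t ∧ s.Prime ∧ 5 ≤ s)) :
    Sequential (mK m s t) ↔
      (m = 1 ∧ (s = 1 ∨ t = 1)) ∨
      (2 ≤ m ∧ 2 ≤ s ∧ 2 ≤ t ∧ ¬ (s = 2 ∧ t = 2) ∧ ¬ (m = 2 ∧ s ≤ 3 ∧ t ≤ 3)) :=
  main m s t hm hs ht hex

end Pool.Agent.Results.MP_c865f9_co.AllButPrimePairs
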